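import Mathlib

set_option autoImplicit false

namespace Pool.Agent.Results.MP_01ee34_gt.TwoSets

/-- The unit sphere `S^d` in `ℝ^(d+1)`. -/
def Sph (d : ℕ) : Set (Fin (d + 1) → ℝ) := {x | ∑ i, x i ^ 2 = 1}

/-- `F` contains a congruent copy of `A`: some rotation (a matrix in `SO(d+1)`) maps every point
of `A` into `F`. -/
def ContainsCopy (d : ℕ) (A F : Set (Fin (d + 1) → ℝ)) : Prop :=
  ∃ M ∈ Matrix.specialOrthogonalGroup (Fin (d + 1)) ℝ, ∀ a ∈ A, M.mulVec a ∈ F

/-- A closed cover `F 0, …, F (m - 1)` of `S^d`. -/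
def IsClosedCover (d m : ℕ) (F : Fin m → Set (Fin (d + 1) → ℝ)) : Prop :=
  (∀ i, IsClosed (F i)) ∧ (⋃ i, F i) = Sph d

/-- `F` misses some set of exactly `k` points of `S^d`: no congruent copy of it lies in `F`. -/
def MissesSome (d : ℕ) (k : ℕ) (F : Set (Fin (d + 1) → ℝ)) : Prop :=
  ∃ A : Set (Fin (d + 1) → ℝ), A ⊆ Sph d ∧ A.encard = k ∧ ¬ ContainsCopy d A F

theorem vec_sph (a b c : ℝ) (h : a ^ 2 + b ^ 2 + c ^ 2 = 1) : ![a, b, c] ∈ Sph 2 := by
  change ∑ i, (![a, b, c] : Fin 3 → ℝ) i ^ 2 = 1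
  rw [Fin.sum_univ_three]
  exact h

theorem key (M : Matrix (Fin (2 + 1)) (Fin (2 + 1)) ℝ)
    (hM : M ∈ Matrix.specialOrthogonalGroup (Fin (2 + 1)) ℝ) :
    ∃ u : Fin 3 → ℝ, u 0 ^ 2 + u 1 ^ 2 + u 2 ^ 2 = 1 ∧
      ∀ a b c : ℝ, (M.mulVec ![a, b, c]) 2 = a * u 0 + b * u 1 + c * u 2 := by
  refine ⟨M 2, ?_, ?_⟩
  · have h1 := (Matrix.mem_specialOrthogonalGroup_iff.1 hM).1
    have h2 := (Matrix.mem_orthogonalGroup_iff (Fin (2 + 1)) ℝ).1 h1
    have h3 := congrFun (congrFun h2 2) 2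
    rw [Matrix.mul_apply, Fin.sum_univ_three] at h3
    simp only [Matrix.transpose_apply, Matrix.one_apply_eq] at h3
    linarith
  · intro a b c
    rw [Matrix.mulVec, dotProduct, Fin.sum_univ_three]
    simp only [Matrix.cons_val_zero, Matrix.cons_val_one, Matrix.cons_val]
    ring

/-- Q1 fails for `d = 2`, `m = 2`: there is a closed cover of the 2-sphere by two sets, each of
which misses some set of `d - m + 3 = 3` points of the sphere. -/
theorem result :
    ∃ d m : ℕ, 1 ≤ d ∧ 1 ≤ m ∧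
      ∃ F : Fin m → Set (Fin (d + 1) → ℝ), IsClosedCover d m F ∧
        ∀ i, ∃ k : ℕ, (k : ℤ) = (d : ℤ) - (m : ℤ) + 3 ∧ MissesSome d k (F i) := by
  refine ⟨2, 2, by norm_num, by norm_num,
    ![{x : Fin 3 → ℝ | x ∈ Sph 2 ∧ 11 / 20 ≤ |x 2|}, {x : Fin 3 → ℝ | x ∈ Sph 2 ∧ |x 2| ≤ 11 / 20}],
    ⟨?_, ?_⟩, ?_⟩
  · have hc : Continuous (fun x : Fin 3 → ℝ => |x 2|) := by fun_prop
    have hs : IsClosed (Sph 2) := by
      apply isClosed_eq _ continuous_const
      fun_prop
    intro i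
    fin_cases i
    · exact hs.inter (isClosed_le continuous_const hc)
    · exact hs.inter (isClosed_le hc continuous_const)
  · ext x
    simp only [Set.mem_iUnion]
    constructor
    · rintro ⟨i, hi⟩
      fin_cases i
      · exact hi.1
      · exact hi.1
    · intro hx
      rcases le_total (11 / 20) |x 2| with h | h
      · exact ⟨0, hx, h⟩
      · exact ⟨1, hx, h⟩
  · intro i
    refine ⟨3, by norm_num, ?_⟩
    fin_cases i
    · have h3 : Real.sqrt 3 ^ 2 = 3 := Real.sq_sqrt (by norm_num)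
      have h3' : 0 < Real.sqrt 3 := Real.sqrt_pos.2 (by norm_num)
      refine ⟨{![1, 0, 0], ![-1 / 2, Real.sqrt 3 / 2, 0], ![-1 / 2, -(Real.sqrt 3 / 2), 0]},
        ?_, ?_, ?_⟩
      · intro x hx
        rcases hx with rfl | rfl | rfl
        · exact vec_sph _ _ _ (by norm_num)
        · exact vec_sph _ _ _ (by nlinarith)
        · exact vec_sph _ _ _ (by nlinarith)
      · refine Set.encard_eq_three.2 ⟨_, _, _, ?_, ?_, ?_, rfl⟩
        · intro h
          have := congrFun h 0
          simp at this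
          norm_num at this
        · intro h
          have := congrFun h 0
          simp at this
          norm_num at this
        · intro h
          have := congrFun h 1
          simp at this
          linarith
      · rintro ⟨ρ, hM, hρ⟩
        obtain ⟨u, hu, hk⟩ := key ρ hM
        have e1 := (hρ (![1, 0, 0]) (by simp)).2
        have e2 := (hρ (![-1 / 2, Real.sqrt 3 / 2, 0]) (by simp)).2
        have e3 := (hρ (![-1 / 2, -(Real.sqrt 3 / 2), 0]) (by simp)).2
        rw [hk] at e1 e2 e3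
        have q : (1 * u 0 + 0 * u 1 + 0 * u 2) ^ 2 +
            (-1 / 2 * u 0 + Real.sqrt 3 / 2 * u 1 + 0 * u 2) ^ 2 +
            (-1 / 2 * u 0 + -(Real.sqrt 3 / 2) * u 1 + 0 * u 2) ^ 2 ≤ 3 / 2 := by
          have : (1 * u 0 + 0 * u 1 + 0 * u 2) ^ 2 +
            (-1 / 2 * u 0 + Real.sqrt 3 / 2 * u 1 + 0 * u 2) ^ 2 +
            (-1 / 2 * u 0 + -(Real.sqrt 3 / 2) * u 1 + 0 * u 2) ^ 2 =
            3 / 2 * (u 0 ^ 2 + u 1 ^ 2) := by
            linear_combination (u 1 ^ 2 / 2) * h3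
          rw [this]
          nlinarith [sq_nonneg (u 2)]
        have s : (1 * u 0 + 0 * u 1 + 0 * u 2) + (-1 / 2 * u 0 + Real.sqrt 3 / 2 * u 1 + 0 * u 2) +
            (-1 / 2 * u 0 + -(Real.sqrt 3 / 2) * u 1 + 0 * u 2) = 0 := by ring
        generalize (1 * u 0 + 0 * u 1 + 0 * u 2) = a at *
        generalize (-1 / 2 * u 0 + Real.sqrt 3 / 2 * u 1 + 0 * u 2) = b at *
        generalize (-1 / 2 * u 0 + -(Real.sqrt 3 / 2) * u 1 + 0 * u 2) = c at *
        have hc : c = -(a + b) := by linarith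
        subst hc
        rw [abs_neg] at e3
        rcases le_abs.1 e1 with f1 | f1 <;> rcases le_abs.1 e2 with f2 | f2 <;>
          rcases le_abs.1 e3 with f3 | f3 <;> nlinarith
    · refine ⟨{![1, 0, 0], ![0, 1, 0], ![0, 0, 1]}, ?_, ?_, ?_⟩
      · intro x hx
        rcases hx with rfl | rfl | rfl
        · exact vec_sph _ _ _ (by norm_num)
        · exact vec_sph _ _ _ (by norm_num)
        · exact vec_sph _ _ _ (by norm_num)
      · refine Set.encard_eq_three.2 ⟨_, _, _, ?_, ?_, ?_, rfl⟩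
        · intro h
          have := congrFun h 0
          simp at this
        · intro h
          have := congrFun h 0
          simp at this
        · intro h
          have := congrFun h 1
          simp at this
      · rintro ⟨ρ, hM, hρ⟩
        obtain ⟨u, hu, hk⟩ := key ρ hM
        have e1 := (hρ (![1, 0, 0]) (by simp)).2
        have e2 := (hρ (![0, 1, 0]) (by simp)).2
        have e3 := (hρ (![0, 0, 1]) (by simp)).2
        rw [hk] at e1 e2 e3
        simp only [one_mul, zero_mul, add_zero, zero_add] at e1 e2 e3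
        have g1 := sq_le_sq' (neg_le_of_abs_le e1) (le_of_abs_le e1)
        have g2 := sq_le_sq' (neg_le_of_abs_le e2) (le_of_abs_le e2)
        have g3 := sq_le_sq' (neg_le_of_abs_le e3) (le_of_abs_le e3)
        nlinarith

end Pool.Agent.Results.MP_01ee34_gt.TwoSets
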